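import Pool.Agent.H46.MicA.Stm
import Pool.Agent.H92.M5.Lag
import Pool.Agent.H35.TMU.Tmu

/-!
# The path of a line in scaled coordinates

`path_thm : Pool.MicA.PathStmt`. In one window the natural coordinates over the line side are
polynomials in the time, bounded by `1` at the times of the samples. Most lines and windows have
many separated times, hence the coefficients are at most `2 ^ z`.
-/

set_option autoImplicit false

namespace Pool.PTH

open Finset MvPolynomial
open Pool.Agent.H49.Ent Pool.Agent.H32.Dense Pool.STK Pool.STAT Pool.MIC Pool.MIC.Frm Pool.LBL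
open Pool.BFL (Pl Pb)
open Pool.MicA
open scoped Polynomial

/-- A finite set of naturals has `N` separated elements, or it is small. -/
theorem sep_or (S : Finset ℕ) (s : ℕ) : ∀ N : ℕ,
    (∃ t : Fin N → ℕ, (∀ p, t p ∈ S) ∧ ∀ p p', p ≠ p' → (s : ℝ) ≤ |((t p : ℕ) : ℝ) - t p'|) ∨
      S.card ≤ N * (2 * s + 1) := by
  classical
  intro N
  induction N with
  | zero => exact Or.inl ⟨fun p => p.elim0, fun p => p.elim0, fun p => p.elim0⟩
  | succ N ih =>
    rcases ih with ⟨t, h1, h2⟩ | h
    · by_cases h3 : ∃ a ∈ S, ∀ p, (s : ℝ) ≤ |((t p : ℕ) : ℝ) - a|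
      · obtain ⟨a, ha, h4⟩ := h3
        refine Or.inl ⟨Fin.snoc t a, fun p => ?_, fun p p' hp => ?_⟩
        · refine Fin.lastCases ?_ (fun p => ?_) p
          · rw [Fin.snoc_last]
            exact ha
          · rw [Fin.snoc_castSucc]
            exact h1 p
        · revert hp
          refine Fin.lastCases ?_ (fun p => ?_) p
          · refine Fin.lastCases ?_ (fun p' => ?_) p'
            · intro hp
              exact absurd rfl hp
            · intro _
              rw [Fin.snoc_last, Fin.snoc_castSucc, abs_sub_comm]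
              exact h4 p'
          · refine Fin.lastCases ?_ (fun p' => ?_) p'
            · intro _
              rw [Fin.snoc_last, Fin.snoc_castSucc]
              exact h4 p
            · intro hp
              rw [Fin.snoc_castSucc, Fin.snoc_castSucc]
              exact h2 p p' fun h => hp (by rw [h])
      · right
        push Not at h3
        have h5 : S ⊆ univ.biUnion fun p : Fin N => Finset.Icc (t p - s) (t p + s) := by
          intro a ha
          obtain ⟨p, hp⟩ := h3 a ha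
          refine Finset.mem_biUnion.2 ⟨p, Finset.mem_univ p, Finset.mem_Icc.2 ?_⟩
          obtain ⟨h6, h7⟩ := abs_lt.1 hp
          have h8 : ((t p : ℕ) : ℝ) < a + s := by linarith
          have h9 : (a : ℝ) < t p + s := by linarith
          have h8' : t p < a + s := by exact_mod_cast h8
          have h9' : a < t p + s := by exact_mod_cast h9
          omega
        have h6 := (Finset.card_le_card h5).trans Finset.card_biUnion_le
        refine h6.trans ?_
        have h7 : ∀ p ∈ (univ : Finset (Fin N)), (Finset.Icc (t p - s) (t p + s)).card ≤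
            2 * s + 1 := by
          intro p _
          rw [Nat.card_Icc]
          omega
        refine (Finset.sum_le_sum h7).trans ?_
        rw [Finset.sum_const, Finset.card_univ, Fintype.card_fin, smul_eq_mul]
        exact Nat.mul_le_mul_right _ (Nat.le_succ N)
    · exact Or.inr (h.trans (Nat.mul_le_mul_right _ (Nat.le_succ N)))

section
variable {Ω S : Type} [Fintype Ω]

open Classical in
/-- The values of `T` in a class. -/
noncomputable def st (q : Ω → ℝ) (g : Ω → S) (T : Ω → ℕ) (x : S) : Finset ℕ :=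
  (univ.filter fun ω => 0 < q ω ∧ g ω = x).image T

theorem mem_st {q : Ω → ℝ} {g : Ω → S} {T : Ω → ℕ} {x : S} {a : ℕ} :
    a ∈ st q g T x ↔ ∃ ω, 0 < q ω ∧ g ω = x ∧ T ω = a := by
  classical
  unfold st
  rw [Finset.mem_image]
  constructor
  · rintro ⟨ω, h1, h2⟩
    have h3 := (Finset.mem_filter.1 h1).2
    exact ⟨ω, h3.1, h3.2, h2⟩
  · rintro ⟨ω, h1, h2, h3⟩
    exact ⟨ω, Finset.mem_filter.2 ⟨Finset.mem_univ ω, h1, h2⟩, h3⟩

/-- **Most classes have many values.** -/
theorem big_class {q : Ω → ℝ} (hq : IsLaw q) (g : Ω → S) (T : Ω → ℕ) {m y N : ℕ}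
    (hT : ∀ ω, T ω < 2 ^ m) (hy : y ≤ m) (hN : 1 ≤ N) {D : ℝ}
    (h : m * Real.log 2 - D ≤ CH q T g) :
    Pb q (fun ω => (st q g T (g ω)).card ≤ N * (2 * 2 ^ (m - y) + 1)) *
      (y * Real.log 2 - Real.log (4 * N)) ≤ D := by
  classical
  have h1 := CH_le_card hq.nonneg hq.sum_one T g (st q g T) (fun ω hω =>
    mem_st.2 ⟨ω, hω, rfl, rfl⟩)
  have hN0 : (0 : ℝ) < N := by exact_mod_cast hN
  obtain ⟨c, hc⟩ : ∃ c : ℝ, c = y * Real.log 2 - Real.log (4 * N) := ⟨_, rfl⟩
  obtain ⟨B, hB⟩ : ∃ B : Ω → Prop,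
    B = fun ω => (st q g T (g ω)).card ≤ N * (2 * 2 ^ (m - y) + 1) := ⟨_, rfl⟩
  rw [← hc, ← hB]
  have h2 : Ex q (fun ω => Real.log ((st q g T (g ω)).card)) ≤
      Ex q (fun ω => m * Real.log 2 - (if B ω then c else 0)) := by
    refine Ex_mono hq.nonneg fun ω hω => ?_
    have hpos : 0 < (st q g T (g ω)).card := by
      exact Finset.card_pos.2 ⟨T ω, mem_st.2 ⟨ω, hω, rfl, rfl⟩⟩
    have hpos' : (0 : ℝ) < (st q g T (g ω)).card := by exact_mod_cast hpos
    split_ifs with hb
    · rw [hB] at hb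
      have h3 : ((st q g T (g ω)).card : ℝ) ≤ 4 * N * 2 ^ (m - y) := by
        have h4 : (st q g T (g ω)).card ≤ 4 * N * 2 ^ (m - y) := by
          refine hb.trans ?_
          have : 1 ≤ 2 ^ (m - y) := Nat.one_le_two_pow
          nlinarith
        exact_mod_cast h4
      have h4 := Real.log_le_log hpos' h3
      rw [Real.log_mul (by positivity) (by positivity), Real.log_pow] at h4
      have h5 : ((m - y : ℕ) : ℝ) = m - y := Nat.cast_sub hy
      rw [h5] at h4
      rw [hc]
      linarith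
    · rw [sub_zero]
      have h3 : ((st q g T (g ω)).card : ℝ) ≤ 2 ^ m := by
        have h4 : st q g T (g ω) ⊆ Finset.range (2 ^ m) := by
          intro a ha
          obtain ⟨ω', -, -, rfl⟩ := mem_st.1 ha
          exact Finset.mem_range.2 (hT ω')
        have h5 := Finset.card_le_card h4
        rw [Finset.card_range] at h5
        exact_mod_cast h5
      have h4 := Real.log_le_log hpos' h3
      rwa [Real.log_pow] at h4
  have h3 : Ex q (fun ω => m * Real.log 2 - (if B ω then c else 0)) =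
      m * Real.log 2 - Pb q B * c := by
    rw [Ex_sub, Ex_const hq.sum_one]
    congr 1
    unfold Ex Pb
    rw [Finset.sum_mul]
    refine Finset.sum_congr rfl fun ω _ => ?_
    by_cases hb : B ω <;> simp [hb]
  linarith

end

/-- Restriction of a polynomial to a curve. -/
theorem natDegree_aeval_le' {σ : Type} (Q : MvPolynomial σ ℝ) (g : σ → Polynomial ℝ) {K D : ℕ}
    (hg : ∀ i, (g i).natDegree ≤ K) (h : Q.totalDegree ≤ D) :
    (MvPolynomial.aeval g Q).natDegree ≤ D * K := by
  rw [MvPolynomial.aeval_def, MvPolynomial.eval₂_eq]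
  refine Polynomial.natDegree_sum_le_of_forall_le _ _ fun α hα => ?_
  refine (Polynomial.natDegree_mul_le).trans ?_
  have h1 : (algebraMap ℝ (Polynomial ℝ) (MvPolynomial.coeff α Q)).natDegree = 0 :=
    Polynomial.natDegree_C _
  have h2 : (∏ i ∈ α.support, g i ^ α i).natDegree ≤ α.degree * K := by
    refine (Polynomial.natDegree_prod_le _ _).trans ?_
    rw [Finsupp.degree_apply, Finset.sum_mul]
    refine Finset.sum_le_sum fun i _ => ?_
    exact Polynomial.natDegree_pow_le.trans (Nat.mul_le_mul_left (α i) (hg i))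
  rw [h1, zero_add]
  exact h2.trans (Nat.mul_le_mul_right K ((MvPolynomial.le_totalDegree hα).trans h))

theorem eval_aev {σ : Type} (Q : MvPolynomial σ ℝ) (g : σ → Polynomial ℝ) (t : ℝ) :
    (MvPolynomial.aeval g Q).eval t = MvPolynomial.eval (fun i => (g i).eval t) Q := by
  have h := MvPolynomial.map_aeval g (Polynomial.evalRingHom t) Q
  rw [Polynomial.coe_evalRingHom] at h
  rw [h, MvPolynomial.coe_eval₂Hom, MvPolynomial.eval, MvPolynomial.coe_eval₂Hom]
  congr 1
  ext a
  simp

/-- The coefficients of a polynomial which is bounded at separated nodes. -/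
theorem coeff_nodes {N y : ℕ} (t : Fin N → ℝ) (ht : ∀ p, |t p| ≤ 1)
    (hsep : ∀ p p', p ≠ p' → (1 : ℝ) / 2 ^ y ≤ |t p - t p'|) (Q : ℝ[X]) (hQ : Q.natDegree < N)
    (hb : ∀ p, |Q.eval (t p)| ≤ 1) (a : Fin N) : |Q.coeff a| ≤ N * (2 * 2 ^ y) ^ N := by
  obtain ⟨γ, h1, h2⟩ := Pool.M5.exists_coeffs N t (1 / 2 ^ y) (by positivity) (by
    rw [div_le_one (by positivity)]
    exact one_le_pow₀ (by norm_num)) ht hsep
  have h3 : Q.coeff a = ∑ p, γ p a * Q.eval (t p) := by
    have h4 : ∀ p, Q.eval (t p) = ∑ b : Fin N, Q.coeff b * t p ^ (b : ℕ) := by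
      intro p
      rw [Polynomial.eval_eq_sum_range' hQ, Finset.sum_range]
    simp_rw [h4, Finset.mul_sum]
    rw [Finset.sum_comm]
    have h5 : ∀ b : Fin N, ∑ p, γ p a * (Q.coeff b * t p ^ (b : ℕ)) =
        Q.coeff b * (if a = b then 1 else 0) := by
      intro b
      rw [← h2 a b, Finset.mul_sum]
      exact Finset.sum_congr rfl fun p _ => by ring
    rw [Finset.sum_congr rfl fun b _ => h5 b]
    simp
  rw [h3]
  refine (Finset.abs_sum_le_sum_abs _ _).trans ?_
  have h4 : ∀ p ∈ (univ : Finset (Fin N)), |γ p a * Q.eval (t p)| ≤ (2 * 2 ^ y) ^ N := by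
    intro p _
    rw [abs_mul]
    have h5 := h1 p a
    have h6 : (2 : ℝ) / (1 / 2 ^ y) = 2 * 2 ^ y := by
      rw [div_div_eq_mul_div, div_one]
    rw [h6] at h5
    have := mul_le_mul h5 (hb p) (abs_nonneg _) (by positivity)
    rwa [mul_one] at this
  refine (Finset.sum_le_sum h4).trans ?_
  rw [Finset.sum_const, Finset.card_univ, Fintype.card_fin, nsmul_eq_mul]

/-! ### The path -/

section
variable (D : NDat2) (J w z i j : ℕ)

/-- The absolute time as a polynomial in the relative time. -/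
noncomputable def tp (ω : D.Ω) : ℝ[X] :=
  Polynomial.C (((D.T ω / 2 ^ (J - w) : ℕ) : ℝ) / 2 ^ w) + Polynomial.C (1 / 2 ^ w) * Polynomial.X

/-- The natural coordinate along the line. -/
noncomputable def Qp (ω : D.Ω) (l : ℕ) : ℝ[X] :=
  Polynomial.C ((2 : ℝ) ^ D.g i j l) *
    (D.pa (D.ln ω) l - aeval (D.pa (D.ln ω)) (D.Φ i j ω l)).comp (tp D J w ω)

/-- The scaled coordinate along the line. -/
noncomputable def UU (ω : D.Ω) (l : ℕ) : ℝ[X] :=
  Polynomial.C (1 / (4 * 2 ^ z)) * (Qp D J w i j ω l + Polynomial.C (2 * 2 ^ z))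

variable {D J w z i j}

theorem tp_eval (hX : ∀ ω, D.X ω 0 = (D.T ω : ℝ) / 2 ^ J) (hw : w ≤ J) (ω : D.Ω) :
    (tp D J w ω).eval ((thr D J w ω : ℝ) / 2 ^ (J - w)) = D.X ω 0 := by
  unfold tp thr
  rw [Polynomial.eval_add, Polynomial.eval_C, Polynomial.eval_mul, Polynomial.eval_C,
    Polynomial.eval_X, hX]
  have h := Nat.div_add_mod (D.T ω) (2 ^ (J - w))
  have h2 : ((2 ^ (J - w) * (D.T ω / 2 ^ (J - w)) + D.T ω % 2 ^ (J - w) : ℕ) : ℝ) = D.T ω := by
    rw [h]
  rw [Nat.cast_add, Nat.cast_mul, Nat.cast_pow, Nat.cast_ofNat] at h2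
  rw [← h2]
  have h3 : (2 : ℝ) ^ J = 2 ^ (J - w) * 2 ^ w := by
    rw [← pow_add]
    congr 1
    omega
  rw [h3]
  field_simp

theorem tp_deg (ω : D.Ω) : (tp D J w ω).natDegree ≤ 1 := by
  unfold tp
  refine (Polynomial.natDegree_add_le _ _).trans (max_le ?_ ?_)
  · rw [Polynomial.natDegree_C]
    exact Nat.zero_le _
  · refine (Polynomial.natDegree_C_mul_le _ _).trans ?_
    exact Polynomial.natDegree_X_le

theorem Qp_deg {K : ℕ} (hp : ∀ x l, (D.pa x l).natDegree ≤ K)
    (hP : ∀ i j x l, (D.P i j x l).totalDegree ≤ K) (ω : D.Ω) (l : ℕ) :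
    (Qp D J w i j ω l).natDegree ≤ K * (K + 1) := by
  unfold Qp
  refine (Polynomial.natDegree_C_mul_le _ _).trans ?_
  refine (Polynomial.natDegree_comp_le).trans ?_
  have h1 : (D.pa (D.ln ω) l - aeval (D.pa (D.ln ω)) (D.Φ i j ω l)).natDegree ≤ K * (K + 1) := by
    refine (Polynomial.natDegree_sub_le _ _).trans (max_le ?_ ?_)
    · refine (hp _ _).trans ?_
      nlinarith
    · refine (natDegree_aeval_le' _ _ (hp (D.ln ω)) (hP i j (D.c i j ω) l)).trans ?_
      nlinarith
  calc _ ≤ K * (K + 1) * 1 := Nat.mul_le_mul h1 (tp_deg ω)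
    _ = K * (K + 1) := Nat.mul_one _

theorem UU_deg {K : ℕ} (hp : ∀ x l, (D.pa x l).natDegree ≤ K)
    (hP : ∀ i j x l, (D.P i j x l).totalDegree ≤ K) (ω : D.Ω) (l : ℕ) :
    (UU D J w z i j ω l).natDegree ≤ K * (K + 1) := by
  unfold UU
  refine (Polynomial.natDegree_C_mul_le _ _).trans ?_
  refine (Polynomial.natDegree_add_le _ _).trans (max_le (Qp_deg hp hP ω l) ?_)
  rw [Polynomial.natDegree_C]
  exact Nat.zero_le _

theorem Qp_eval (hX : ∀ ω, D.X ω 0 = (D.T ω : ℝ) / 2 ^ J) (hw : w ≤ J) {ω : D.Ω} {n : ℕ}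
    (hs : ∀ l ≤ n, D.X ω l = (D.pa (D.ln ω) l).eval (D.X ω 0))
    (ht : TriN (D.Φ i j ω)) {l : ℕ} (hl : l ≤ n) :
    (Qp D J w i j ω l).eval ((thr D J w ω : ℝ) / 2 ^ (J - w)) = zt D i j ω l := by
  unfold Qp zt nat
  rw [Polynomial.eval_mul, Polynomial.eval_C, Polynomial.eval_comp, tp_eval hX hw,
    Polynomial.eval_sub, ← hs l hl, eval_aev]
  congr 2
  refine eval₂Hom_congr' rfl (fun r hr _ => ?_) rfl
  have h1 : r < l := mem_range.1 (ht l hr)
  exact (hs r (by omega)).symm

theorem UU_eval (hX : ∀ ω, D.X ω 0 = (D.T ω : ℝ) / 2 ^ J) (hw : w ≤ J) {ω : D.Ω} {n : ℕ}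
    (hs : ∀ l ≤ n, D.X ω l = (D.pa (D.ln ω) l).eval (D.X ω 0))
    (ht : TriN (D.Φ i j ω)) {l : ℕ} (hl : l ≤ n) :
    (UU D J w z i j ω l).eval ((thr D J w ω : ℝ) / 2 ^ (J - w)) = up z (zt D i j ω l) := by
  unfold UU up
  rw [Polynomial.eval_mul, Polynomial.eval_C, Polynomial.eval_add, Polynomial.eval_C,
    Qp_eval hX hw hs ht hl]
  ring

/-- The path is a function of the line and of the window. -/
theorem Qp_congr {q : D.Ω → ℝ} (hc : Det q (D.wn J w) (D.c i j)) {ω ω' : D.Ω} (h : 0 < q ω)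
    (h' : 0 < q ω') (e : D.wn J w ω = D.wn J w ω') (l : ℕ) :
    Qp D J w i j ω l = Qp D J w i j ω' l := by
  have e1 : D.ln ω = D.ln ω' := (Prod.ext_iff.1 e).1
  have e2 : D.T ω / 2 ^ (J - w) = D.T ω' / 2 ^ (J - w) := (Prod.ext_iff.1 e).2
  have e3 : D.c i j ω = D.c i j ω' := hc ω ω' h h' e
  unfold Qp tp NDat2.Φ
  rw [e1, e2, e3]

end

/-- **The path.** -/
theorem path_thm : PathStmt := by
  classical
  intro n K lam gam C₁ e hn hC₁ he
  obtain ⟨N, hN⟩ : ∃ N, N = K * (K + 1) + 1 := ⟨_, rfl⟩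
  have hN1 : 1 ≤ N := by omega
  have hN0 : (0 : ℝ) < N := by exact_mod_cast hN1
  refine ⟨K * (K + 1), e / (8 * N), 20 * N ^ 2 + 5 * N, by positivity, ?_⟩
  intro J a₀ w₀ z M i j D q hz hi hj hO hU
  obtain ⟨w, hw⟩ : ∃ w, w = w₀ + j * z := ⟨_, rfl⟩
  rw [← hw]
  obtain ⟨y, hy⟩ : ∃ y, y = z / (2 * N) := ⟨_, rfl⟩
  have hz4 : 4 * N ≤ z := by nlinarith
  have hyz : y ≤ z := by
    rw [hy]
    exact Nat.div_le_self _ _
  have hwJ : w + y ≤ J ∧ w ≤ J := by
    have h1 := hO.top
    have h2 := hO.thin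
    have h3 : j * z ≤ M * z := Nat.mul_le_mul_right z hj
    have h4 : (M + 1) * z = M * z + z := by ring
    rw [hw]
    omega
  have hq := hO.isLaw
  -- the times in the classes
  have hlow := Pool.TMU.CH_low hq D.T D.ln (w := w) (by rw [hw]; exact Nat.le_add_right _ _)
    hwJ.2 hO.ln_w hU
  have hlow' : ((J - w : ℕ) : ℝ) * Real.log 2 - e / (8 * N) * z ≤
      CH q (thr D J w) (D.wn J w) := by
    refine hlow.trans ?_
    refine CH_mono_left hq.nonneg ?_
    intro ω ω' _ _ e'
    have e1 : thr D J w ω = thr D J w ω' := (Prod.ext_iff.1 e').1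
    have e2 : D.T ω / 2 ^ (J - w) = D.T ω' / 2 ^ (J - w) :=
      (Prod.ext_iff.1 (Prod.ext_iff.1 e').2).2
    unfold thr at e1
    rw [← Nat.div_add_mod (D.T ω) (2 ^ (J - w)), ← Nat.div_add_mod (D.T ω') (2 ^ (J - w)),
      e1, e2]
  have hbig := big_class hq (D.wn J w) (thr D J w) (m := J - w) (y := y)
    (fun ω => Nat.mod_lt _ (by positivity)) (by omega) hN1 hlow'
  -- the path
  have hpath : ∀ ω ω', 0 < q ω → 0 < q ω' → D.wn J w ω = D.wn J w ω' → ∀ l,
      UU D J w z i j ω l = UU D J w z i j ω' l := by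
    intro ω ω' h h' e' l
    unfold UU
    rw [Qp_congr (hw ▸ hO.c_wn i hi j hj) h h' e' l]
  obtain ⟨U, hUU⟩ : ∃ U : D.Λ × ℕ → ℕ → ℝ[X], ∀ ω, 0 < q ω →
      U (D.wn J w ω) = UU D J w z i j ω := by
    refine ⟨fun x => if h : ∃ ω, 0 < q ω ∧ D.wn J w ω = x then UU D J w z i j h.choose else 0,
      fun ω hω => ?_⟩
    have hx : ∃ ω', 0 < q ω' ∧ D.wn J w ω' = D.wn J w ω := ⟨ω, hω, rfl⟩
    dsimp only
    rw [dif_pos hx]
    funext l
    exact hpath _ _ hx.choose_spec.1 hω hx.choose_spec.2 l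
  refine ⟨fun x l a => (U x (l + 1)).coeff a, ?_, ?_⟩
  · intro ω hω l
    have hl : (l : ℕ) + 1 ≤ n := by
      have := l.2
      omega
    have h1 := UU_eval (z := z) hO.X_zero hwJ.2 (hO.str ω hω) (hO.P_tri i j (D.c i j ω))
      (i := i) (j := j) hl
    rw [← h1, ← hUU ω hω]
    have h2 : (U (D.wn J w ω) (l + 1)).natDegree < K * (K + 1) + 1 := by
      rw [hUU ω hω]
      exact Nat.lt_succ_of_le (UU_deg hO.pa_deg hO.P_deg ω _)
    rw [Polynomial.eval_eq_sum_range' h2, Finset.sum_range]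
    rfl
  · -- the bad classes
    have hsub : Pb q (fun ω => ¬ ∀ (l : Fin (n - 1)) (a : Fin (K * (K + 1) + 1)),
        |(U (D.wn J w ω) (l + 1)).coeff a| ≤ 1) ≤
        Pb q (fun ω => (st q (D.wn J w) (thr D J w) (D.wn J w ω)).card ≤
          N * (2 * 2 ^ (J - w - y) + 1)) := by
      refine Pool.MIC.Pb_mono_ae hq.nonneg fun ω hω hbad => ?_
      by_contra hcard
      refine hbad fun l a => ?_
      have hl : (l : ℕ) + 1 ≤ n := by
        have := l.2
        omega
      obtain ⟨t, ht1, ht2⟩ := (sep_or (st q (D.wn J w) (thr D J w) (D.wn J w ω))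
        (2 ^ (J - w - y)) N).resolve_right hcard
      -- the nodes
      have hnode : ∀ p, ∃ ω', 0 < q ω' ∧ D.wn J w ω' = D.wn J w ω ∧ thr D J w ω' = t p := by
        exact fun p => mem_st.1 (ht1 p)
      have hpw : (0 : ℝ) < 2 ^ (J - w) := by positivity
      have h1 := coeff_nodes (N := N) (y := y) (fun p => (t p : ℝ) / 2 ^ (J - w)) (fun p => ?_)
        (fun p p' hp => ?_) (Qp D J w i j ω (l + 1)) (by
          rw [hN]
          exact Nat.lt_succ_of_le (Qp_deg hO.pa_deg hO.P_deg ω _)) (fun p => ?_)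
        ⟨a, by rw [hN]; exact a.2⟩
      · -- the coefficient
        rw [hUU ω hω]
        unfold UU
        rw [Polynomial.coeff_C_mul, Polynomial.coeff_add, Polynomial.coeff_C]
        have h2 : (N : ℝ) * (2 * 2 ^ y) ^ N ≤ 2 ^ z := by
          have h3 : (2 * 2 ^ y : ℝ) ^ N = 2 ^ ((y + 1) * N) := by
            rw [← pow_succ', ← pow_mul]
          have h4 : (N : ℝ) ≤ 2 ^ N := by
            have := Nat.lt_two_pow_self (n := N)
            exact_mod_cast this.le
          rw [h3]
          calc (N : ℝ) * 2 ^ ((y + 1) * N) ≤ 2 ^ N * 2 ^ ((y + 1) * N) :=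
                mul_le_mul_of_nonneg_right h4 (by positivity)
            _ = 2 ^ (N + (y + 1) * N) := by rw [pow_add]
            _ ≤ 2 ^ z := by
                refine pow_le_pow_right₀ (by norm_num) ?_
                have h5 : y * (2 * N) ≤ z := by
                  rw [hy]
                  exact Nat.div_mul_le_self _ _
                nlinarith
        have h3 : (0 : ℝ) < 2 ^ z := by positivity
        have h4 : |(Qp D J w i j ω (l + 1)).coeff a| ≤ 2 ^ z := h1.trans h2
        rw [abs_mul, abs_of_pos (show (0 : ℝ) < 1 / (4 * 2 ^ z) by positivity), one_div,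
          inv_mul_le_iff₀ (by positivity)]
        refine (abs_add_le _ _).trans ?_
        have h5 : |(if (a : ℕ) = 0 then (2 : ℝ) * 2 ^ z else 0)| ≤ 2 * 2 ^ z := by
          split_ifs
          · rw [abs_of_pos (by positivity)]
          · rw [abs_zero]
            positivity
        linarith
      · -- nodes are in the interval
        rw [abs_of_nonneg (by positivity), div_le_one hpw]
        obtain ⟨ω', -, -, h3⟩ := hnode p
        have h4 : t p < 2 ^ (J - w) := by
          rw [← h3]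
          exact Nat.mod_lt _ (by positivity)
        exact_mod_cast h4.le
      · -- separation
        have h3 := ht2 p p' hp
        rw [← sub_div, abs_div, abs_of_pos hpw, div_le_div_iff₀ (by positivity) hpw, one_mul]
        have h4 : (2 : ℝ) ^ (J - w) = ((2 ^ (J - w - y) : ℕ) : ℝ) * 2 ^ y := by
          push_cast
          rw [← pow_add]
          congr 1
          omega
        rw [h4]
        exact mul_le_mul_of_nonneg_right h3 (by positivity)
      · -- values at the nodes
        obtain ⟨ω', h2, h3, h4⟩ := hnode p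
        rw [← Qp_congr (hw ▸ hO.c_wn i hi j hj) h2 hω h3, ← h4,
          Qp_eval hO.X_zero hwJ.2 (hO.str ω' h2) (hO.P_tri i j (D.c i j ω')) hl]
        unfold zt nat
        rw [abs_mul, abs_of_pos (show (0 : ℝ) < 2 ^ D.g i j (l + 1) by positivity)]
        have h5 := hO.hgt i hi j hj ω' h2 (l + 1) hl
        rw [le_div_iff₀ (by positivity)] at h5
        unfold NDat2.rh at h5
        linarith
    refine hsub.trans ?_
    -- numbers
    obtain ⟨P, hP⟩ : ∃ P, P = Pb q (fun ω => (st q (D.wn J w) (thr D J w) (D.wn J w ω)).card ≤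
          N * (2 * 2 ^ (J - w - y) + 1)) := ⟨_, rfl⟩
    rw [← hP] at hbig ⊢
    have hP0 : 0 ≤ P := by
      rw [hP]
      unfold Pb
      exact Finset.sum_nonneg fun ω _ => by
        split_ifs
        · exact hq.nonneg ω
        · exact le_rfl
    have hzN : (20 * (N : ℝ) ^ 2 + 5 * N) ≤ z := by exact_mod_cast hz
    have hlogN : Real.log (4 * N) ≤ 4 * N := by
      have := Real.log_le_sub_one_of_pos (show (0 : ℝ) < 4 * N by positivity)
      linarith
    have hyr : (z : ℝ) / (2 * N) - 1 ≤ y := by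
      have h1 : z < 2 * N * (y + 1) := by
        rw [hy]
        exact Nat.lt_mul_div_succ z (by omega)
      have h2 : (z : ℝ) < 2 * N * (y + 1) := by exact_mod_cast h1
      rw [sub_le_iff_le_add, div_le_iff₀ (by positivity)]
      linarith
    have hl2 : 0.69 ≤ Real.log 2 := by linarith [Real.log_two_gt_d9]
    have hl2' : Real.log 2 ≤ 0.7 := by linarith [Real.log_two_lt_d9]
    have hz0 : (0 : ℝ) < z := by nlinarith
    have h1 : (z : ℝ) / (8 * N) ≤ y * Real.log 2 - Real.log (4 * N) := by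
      obtain ⟨u, hu⟩ : ∃ u : ℝ, u = z / N := ⟨_, rfl⟩
      have hu1 : 20 * (N : ℝ) + 5 ≤ u := by
        rw [hu, le_div_iff₀ hN0]
        nlinarith
      have hu2 : (z : ℝ) / (2 * N) = u / 2 := by
        rw [hu]
        field_simp
      have hu3 : (z : ℝ) / (8 * N) = u / 8 := by
        rw [hu]
        field_simp
      rw [hu2] at hyr
      rw [hu3]
      have hy0 : 0 ≤ u / 2 - 1 := by linarith
      have h2 : (u / 2 - 1) * 0.69 ≤ y * Real.log 2 :=
        mul_le_mul hyr hl2 (by norm_num) (by linarith)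
      nlinarith
    have h2 : P * ((z : ℝ) / (8 * N)) ≤ e / (8 * N) * z :=
      (mul_le_mul_of_nonneg_left h1 hP0).trans hbig
    have h3 : P * ((z : ℝ) / (8 * N)) = P * z / (8 * N) := by ring
    have h4 : e / (8 * N) * z = e * z / (8 * N) := by ring
    rw [h3, h4, div_le_div_iff_of_pos_right (by positivity)] at h2
    exact le_of_mul_le_mul_right h2 hz0

end Pool.PTH
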